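import Mathlib
import Pool.Agent.E8helper22.SZ.Stm

set_option autoImplicit false

namespace Pool.Agent.E8helper63.SZ

open Finset Pool.Agent.E8helper22.SZ

lemma sq_one {q : ℕ} {χ : DirichletCharacter ℂ q} (h : RealPrim q χ) : χ ^ 2 = 1 := by
  apply MulChar.isQuadratic_iff_sq_eq_one.mp
  exact h.quad

lemma tau_eq {q : ℕ} (χ : DirichletCharacter ℂ q) (m : ℕ) :
    tau χ m = (DirichletCharacter.zetaMul χ m).re := by
  unfold tau DirichletCharacter.zetaMul
  rw [ArithmeticFunction.coe_zeta_mul_apply, Complex.re_sum]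
  apply Finset.sum_congr rfl
  intro d hd
  have hd0 : d ≠ 0 := (Nat.pos_of_mem_divisors hd).ne'
  unfold cv
  simp [toArithmeticFunction, hd0]

theorem t_POS : S_POS := by
  intro q χ hq h m hm
  constructor
  · rw [tau_eq χ m]
    have := DirichletCharacter.zetaMul_nonneg (sq_one h) m
    exact (Complex.le_def.mp this).1
  · intro hp hne
    unfold tau
    rw [hp.sum_divisors]
    have h1 : cv χ 1 = 1 := by simp [cv]
    rw [h1]
    have h2 : 0 ≤ cv χ m := by
      unfold cv at hne ⊢
      rcases h.quad (m : ZMod q) with h3 | h3 | h3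
      · rw [h3]; simp
      · rw [h3]; simp
      · exfalso; apply hne; rw [h3]; simp
    linarith

end Pool.Agent.E8helper63.SZ
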