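import Mathlib
import Pool.Agent.E8helper22.SZ.Stm
import Pool.Agent.H307R2.LU

set_option autoImplicit false

namespace Pool.Agent.E8helper63.SZ

open Finset Pool.Agent.E8helper22.SZ

lemma log_three : (1.09 : ℝ) < Real.log 3 := by
  rw [Real.lt_log_iff_exp_lt (by norm_num)]
  have h1 : Real.exp (1.09 : ℝ) = Real.exp 1 / Real.exp (-0.09) := by
    rw [← Real.exp_sub]; norm_num
  rw [h1]
  have h2 : (0.91 : ℝ) ≤ Real.exp (-0.09) := by
    have := Real.add_one_le_exp (-0.09 : ℝ)
    linarith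
  have h3 := Real.exp_one_lt_d9
  rw [div_lt_iff₀ (by positivity)]
  linarith

lemma ne_one {q : ℕ} [NeZero q] {χ : DirichletCharacter ℂ q} (hq : 1 < q) (h : RealPrim q χ) :
    χ ≠ 1 := by
  intro h1
  have h2 := h.prim
  rw [DirichletCharacter.isPrimitive_def, h1, DirichletCharacter.conductor_one] at h2
  omega

lemma three_le {q : ℕ} [NeZero q] {χ : DirichletCharacter ℂ q} (hq : 1 < q) (h : RealPrim q χ) :
    3 ≤ q := by
  by_contra hlt
  have h2 : q = 2 := by omega
  apply ne_one hq h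
  subst h2
  ext a
  have : a = 1 := Subsingleton.elim _ _
  rw [this]
  simp

lemma norm_LFunction_le {q : ℕ} [NeZero q] {χ : DirichletCharacter ℂ q} (hχ : χ ≠ 1)
    (hq : 3 ≤ q) {s : ℂ} (hs1 : 1 - (21 / 20) / Real.log q ≤ s.re) (hs : ‖s‖ ≤ 2) :
    ‖χ.LFunction s‖ ≤ 300 * Real.log q := by
  have hq0 : (0 : ℝ) < q := by exact_mod_cast (show 0 < q by omega)
  have hq3 : (3 : ℝ) ≤ q := by exact_mod_cast hq
  have hlog : (1.09 : ℝ) < Real.log q :=
    lt_of_lt_of_le log_three (Real.log_le_log (by norm_num) hq3)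
  have hlog0 : 0 < Real.log q := by linarith
  have hre : (1 / 40 : ℝ) ≤ s.re := by
    have : (21 / 20) / Real.log q ≤ 39 / 40 := by
      rw [div_le_iff₀ hlog0]; linarith
    linarith
  have hre0 : 0 < s.re := by linarith
  rw [Pool.Agent.H307R2.LFunction_eq hχ (N := q) (by omega) hre0]
  have hexp : Real.exp (21 / 20) ≤ 3 := by
    have h1 : Real.exp (21 / 20 : ℝ) = Real.exp 1 / Real.exp (-0.05) := by
      rw [← Real.exp_sub]; norm_num
    rw [h1]
    have h2 : (0.95 : ℝ) ≤ Real.exp (-0.05) := by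
      have := Real.add_one_le_exp (-0.05 : ℝ)
      linarith
    have h3 := Real.exp_one_lt_d9
    rw [div_le_iff₀ (by positivity)]
    linarith
  -- n^{1 - σ} ≤ 3
  have hpow : ∀ n : ℕ, 1 ≤ n → n ≤ q → (n : ℝ) ^ (1 - s.re) ≤ 3 := by
    intro n hn1 hnq
    have hn1' : (1 : ℝ) ≤ n := by exact_mod_cast hn1
    have hnq' : (n : ℝ) ≤ q := by exact_mod_cast hnq
    calc (n : ℝ) ^ (1 - s.re) ≤ (n : ℝ) ^ ((21 / 20) / Real.log q) :=
          Real.rpow_le_rpow_of_exponent_le hn1' (by linarith)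
      _ ≤ (q : ℝ) ^ ((21 / 20) / Real.log q) :=
          Real.rpow_le_rpow (by linarith) hnq' (by positivity)
      _ = Real.exp (21 / 20) := by
          rw [Real.rpow_def_of_pos hq0]
          congr 1
          field_simp
      _ ≤ 3 := hexp
  have h1 : ‖∑ n ∈ Finset.Icc 1 q, χ (n : ZMod q) * (n : ℂ) ^ (-s)‖ ≤ 3 * (1 + Real.log q) := by
    calc ‖∑ n ∈ Finset.Icc 1 q, χ (n : ZMod q) * (n : ℂ) ^ (-s)‖
        ≤ ∑ n ∈ Finset.Icc 1 q, ‖χ (n : ZMod q) * (n : ℂ) ^ (-s)‖ := norm_sum_le _ _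
      _ ≤ ∑ n ∈ Finset.Icc 1 q, 3 * ((n : ℝ))⁻¹ := by
          apply Finset.sum_le_sum
          intro n hn
          rw [Finset.mem_Icc] at hn
          have hn0 : (0 : ℝ) < n := by exact_mod_cast (show 0 < n by omega)
          rw [norm_mul, Complex.norm_natCast_cpow_of_pos (by omega)]
          have e1 : (n : ℝ) ^ (-s).re = (n : ℝ) ^ (1 - s.re) * ((n : ℝ))⁻¹ := by
            rw [← Real.rpow_neg_one, ← Real.rpow_add hn0]
            congr 1
            rw [Complex.neg_re]
            ring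
          rw [e1]
          have e2 := hpow n hn.1 hn.2
          have e3 : ‖χ (n : ZMod q)‖ ≤ 1 := χ.norm_le_one _
          have e4 : (0 : ℝ) ≤ ((n : ℝ))⁻¹ := by positivity
          have e5 : (0 : ℝ) ≤ (n : ℝ) ^ (1 - s.re) := by positivity
          calc ‖χ (n : ZMod q)‖ * ((n : ℝ) ^ (1 - s.re) * ((n : ℝ))⁻¹)
              ≤ 1 * (3 * ((n : ℝ))⁻¹) := by gcongr
            _ = _ := by ring
      _ = 3 * ((harmonic q : ℚ) : ℝ) := by
          rw [← Finset.mul_sum, harmonic_eq_sum_Icc]
          push_cast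
          rfl
      _ ≤ 3 * (1 + Real.log q) := by
          have := harmonic_le_one_add_log q
          linarith
  have h2 : ‖s * Pool.Agent.H307R2.TM q (Pool.Agent.H307R2.Ech χ q) s‖ ≤ 240 := by
    rw [norm_mul]
    have h3 := Pool.Agent.H307R2.TM_norm_le (N := q) (by omega)
      (Pool.Agent.H307R2.Ech_norm_le hχ q) hre0
    have h4 : (q : ℝ) * ((q : ℝ) ^ (-s.re) / s.re) ≤ 120 := by
      have e1 : (q : ℝ) * (q : ℝ) ^ (-s.re) = (q : ℝ) ^ (1 - s.re) := by
        rw [sub_eq_add_neg, Real.rpow_add hq0, Real.rpow_one]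
      rw [← mul_div_assoc, e1, div_le_iff₀ hre0]
      have := hpow q (by omega) le_rfl
      linarith
    calc ‖s‖ * ‖Pool.Agent.H307R2.TM q (Pool.Agent.H307R2.Ech χ q) s‖
        ≤ 2 * 120 := by
          gcongr
          exact h3.trans h4
      _ = 240 := by norm_num
  calc _ ≤ _ := norm_add_le _ _
    _ ≤ 3 * (1 + Real.log q) + 240 := add_le_add h1 h2
    _ ≤ 300 * Real.log q := by linarith

theorem t_ZERO : S_ZERO := by
  refine ⟨6000, by norm_num, ?_⟩
  intro q _ χ hq h β hβ1 hβ2 h0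
  have hq3 := three_le hq h
  have hχ := ne_one hq h
  have hq0 : (0 : ℝ) < q := by exact_mod_cast (show 0 < q by omega)
  have hq3' : (3 : ℝ) ≤ q := by exact_mod_cast hq3
  have hlog : (1.09 : ℝ) < Real.log q :=
    lt_of_lt_of_le log_three (Real.log_le_log (by norm_num) hq3')
  have hlog0 : 0 < Real.log q := by linarith
  have hdiff := DirichletCharacter.differentiable_LFunction hχ
  have hβ0 : 0 < β := by
    have : 1 / Real.log q < 1 := by
      rw [div_lt_iff₀ hlog0]; linarith
    linarith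
  set r : ℝ := (1 / 20) / Real.log q with hr
  have hr0 : 0 < r := by positivity
  have hr1 : r ≤ 1 := by
    rw [hr, div_le_iff₀ hlog0]; linarith
  have key : ‖χ.LFunction 1 - χ.LFunction β‖ ≤ 6000 * Real.log q ^ 2 * ‖(1 : ℂ) - (β : ℂ)‖ := by
    have hconv : Convex ℝ (segment ℝ (β : ℂ) (1 : ℂ)) := convex_segment _ _
    apply hconv.norm_image_sub_le_of_norm_deriv_le (𝕜 := ℂ) (fun x _ => hdiff x) _
      (left_mem_segment ℝ _ _) (right_mem_segment ℝ _ _)
    intro x hx
    obtain ⟨a, b, ha, hb, hab, rfl⟩ := hx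
    have hxre : (a • (β : ℂ) + b • (1 : ℂ)).re = a * β + b := by simp
    have hxim : (a • (β : ℂ) + b • (1 : ℂ)).im = 0 := by simp
    have hc1 : β ≤ a * β + b := by nlinarith
    have hc2 : a * β + b ≤ 1 := by nlinarith
    set x : ℂ := a • (β : ℂ) + b • (1 : ℂ) with hx
    have hxn : ‖x‖ ≤ 1 := by
      have : x = ((a * β + b : ℝ) : ℂ) := by
        apply Complex.ext <;> simp [hxre, hxim]
      rw [this, Complex.norm_real, Real.norm_of_nonneg (by linarith)]
      exact hc2
    have h5 := Complex.norm_deriv_le_of_forall_mem_sphere_norm_le (c := x) (f := χ.LFunction) hr0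
      hdiff.diffContOnCl (C := 300 * Real.log q) (by
        intro z hz
        rw [mem_sphere_iff_norm] at hz
        apply norm_LFunction_le hχ hq3
        · have h6 : |(z - x).re| ≤ r := by
            rw [← hz]; exact Complex.abs_re_le_norm _
          rw [Complex.sub_re, hxre] at h6
          have h7 := (abs_le.mp h6).1
          have h8 : (21 / 20) / Real.log q = 1 / Real.log q + r := by
            rw [hr]; ring
          rw [h8]
          linarith
        · have : z = x + (z - x) := by ring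
          rw [this]
          refine (norm_add_le _ _).trans ?_
          rw [hz]
          linarith)
    refine h5.trans (le_of_eq ?_)
    rw [hr]
    field_simp
    ring
  rw [h0, sub_zero] at key
  have hn : ‖(1 : ℂ) - (β : ℂ)‖ = 1 - β := by
    have : (1 : ℂ) - (β : ℂ) = ((1 - β : ℝ) : ℂ) := by push_cast; ring
    rw [this, Complex.norm_real, Real.norm_of_nonneg (by linarith)]
  rw [hn] at key
  refine key.trans (le_of_eq ?_)
  ring

end Pool.Agent.E8helper63.SZ
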